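import Pool.Agent.N171.TG.So9

/-!
# The motivic Sato-Tate conjecture for sums: algebraic monodromy groups as fibre products

Let `K` be a number field in the complex numbers and let `M i`, for `i` in a finite set, be motives over
`K` (André motives, or motives for absolute Hodge cycles) with ALTERNATING polarizations `J i`, of weight
`w i` and rank `N i ≥ 6`; for instance the primitive cohomology in the middle degree of smooth projective
varieties of odd dimension. Let `Z` be another motive over `K`, with the `ℓ`-adic realization `τ`, of rank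
`d` (`d = 0` is allowed). The theorem is about the algebraic groups themselves, with their components: the
algebraic monodromy group is the Zariski closure of the image of the Galois group, and its points `(g, z, c)`
over a field `E` which contains `ℚ_ℓ` are given by `InMonodromyGroup`. Here `g` acts on the `M i`, `z` acts on
`Z`, and `c` is the action on `ℚ(-n)`, for any `n` which divides all weights (`w i = n * u i`). If all `M i`
and `Z` are pure of weight `n`, then `c` is the multiplier of the polarizations (`χ` in the problem), and the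
points with `c = 1` are those of the group `G_{1,ℓ}`; for `n = 1`, `c` is the action on `ℚ(-1)`.

**Theorem.** Suppose that the polarizations are integral with odd products on 2-adic lattices stable
under Galois, and that the joint image of the Galois group of `K` on the `M i` MODULO TWO is large
(`LargeModTwo`: there are `N i + 1` integral vectors with odd mutual products, and each EVEN permutation of
these vectors modulo two is given by an element which acts trivially on the other lattices modulo two; for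
example if the joint image modulo two contains the product of the groups `Sp(N i, 𝔽₂)`, or only the product of
the alternating groups of degrees `N i + 1`). Let `ℓ` be

1. the prime number `2`, or
2. any prime number outside of a set of natural density zero, or
3. any prime number at which the `M i` are semisimple (a consequence if `K = ℚ` and the `M i` are pure and
   integral) with scalar endomorphisms over all finite extensions; for abelian varieties this is every
   prime number, by Faltings' theorem and part 1.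

Let `Z` be ANY motive such that a derived subgroup of an open subgroup of the Galois group acts trivially
on the `ℓ`-adic realization of `Z` (for instance motives of CM type, Artin motives, and their extensions), or
such that `d ^ 2 < (N i + 1).choose 2` for all `i` (`IsAdmissible`); for `ℓ = 2` we also admit every motive `Z`
with the condition `FreeValues` modulo two. Then

* the algebraic monodromy group of the sum of the `M i`, `Z` and `ℚ(-n)` is the fibre product of the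
  groups of similitudes of the `J i` and of the algebraic monodromy group of `Z` and `ℚ(-n)`
  (`IsFibreProduct`). In particular `G_{1,ℓ}(⊕ M i ⊕ Z) = ∏ Sp(J i) × G_{1,ℓ}(Z)`;
* `∏ Sp(J i)` is also in the image of Galois, up to an open subgroup: each element of `∏ Sp(J i, ℚ_ℓ)` near
  `1` is given by an element of the Galois group which acts trivially on `Z` and on `ℚ(-1)` (`OpenKernel`);
* the motivic Sato-Tate conjecture `G_{1,ℓ} = 𝒢_1` holds for the sum of the `M i` and `Z` at `ℓ` if and only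
  if it holds for `Z`, and the same is true for the motivic Tate conjecture `G_ℓ = 𝒢` (`SatoTateIff`: for
  every `𝒢` between the algebraic monodromy group and the similitudes, for instance the motivic Galois
  group, the points of `𝒢` with `c = 1` are in the monodromy group if and only if this is true after the
  projection to `Z`, and the same for all points of `𝒢`). For `Z = 0` the conjectures are true.

For arbitrary `Z` at `ℓ = 2`, and without `Z` for the other primes, the equality of the Lie algebras is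
MP_b8862a_ag.FromImageModTwo. For sums of abelian varieties compare Vasiu and Commelin; for other motives
the conjecture for `M` and for `Z` is not known to imply the one for the sum. The steps: the Lie algebra
along the derived subgroups of an open subgroup is still the full symplectic one, or (Goursat) nonzero
tangent vectors extend by zero to `Z` if `d` is small; by successive approximation and `p`-adic logarithms
the joint kernel on `Z` and `ℚ(-1)` has an open image in the product of the symplectic groups; the Zariski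
closure is stable under the symplectic transvections over `E`, which generate the symplectic groups, and
the similitudes have a section which is polynomial in `c`.
-/

set_option autoImplicit false

namespace Pool.Agent.Results.MP_d61fbb_ag.FibreProducts

open Matrix Polynomial Filter Topology NumberField IsDedekindDomain

/-- the absolute Galois group, with the profinite (Krull) topology -/
abbrev AbsoluteGaloisGroup (K : Type) [Field K] : Type := Gal(AlgebraicClosure K/K)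

/-- `σ` is a Frobenius element at the prime `v` of `K`: there is a maximal ideal `Q` above `v` of the
ring of all algebraic integers with `σ x ≡ x ^ N(v)` modulo `Q` for all `x` -/
def IsFrobenius {K : Type} [Field K] [NumberField K] (v : HeightOneSpectrum (𝓞 K))
    (σ : AbsoluteGaloisGroup K) : Prop :=
  ∃ Q : Ideal (𝓞 (AlgebraicClosure K)), Q.IsMaximal ∧
    Q.comap (algebraMap (𝓞 K) (𝓞 (AlgebraicClosure K))) = v.asIdeal ∧
    ∀ x : 𝓞 (AlgebraicClosure K), σ • x - x ^ Ideal.absNorm v.asIdeal ∈ Q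

/-- the rational matrix as an `ℓ`-adic matrix -/
noncomputable abbrev adic (ℓ : ℕ) [Fact ℓ.Prime] {n : ℕ} (J : Matrix (Fin n) (Fin n) ℚ) :
    Matrix (Fin n) (Fin n) ℚ_[ℓ] :=
  J.map (algebraMap ℚ ℚ_[ℓ])

/-- The `ℓ`-adic realizations, for all prime numbers `ℓ`, of motives of rank `N i` and weight `w i` over
the number field `K`, with alternating polarization `J i`, good reduction outside of the finite set `S` of
places and Frobenius polynomials `P i v`; `κ ℓ` is the inverse of the cyclotomic character. -/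
structure IsSystem {K : Type} [Field K] [NumberField K] {ι : Type} {N w : ι → ℕ}
    (S : Set (HeightOneSpectrum (𝓞 K))) (P : ι → HeightOneSpectrum (𝓞 K) → ℚ[X])
    (J : ∀ i, Matrix (Fin (N i)) (Fin (N i)) ℚ)
    (κ : ∀ (ℓ : ℕ) [Fact ℓ.Prime], AbsoluteGaloisGroup K →* ℚ_[ℓ])
    (ρ : ∀ (i : ι) (ℓ : ℕ) [Fact ℓ.Prime],
      AbsoluteGaloisGroup K →* Matrix (Fin (N i)) (Fin (N i)) ℚ_[ℓ]) : Prop where
  finite : S.Finite
  alternating : ∀ i, (J i)ᵀ = -J i
  nondegenerate : ∀ i, (J i).det ≠ 0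
  continuous_char : ∀ (ℓ : ℕ) [Fact ℓ.Prime], Continuous (κ ℓ)
  char_frobenius : ∀ (ℓ : ℕ) [Fact ℓ.Prime], ∀ v ∉ S, (ℓ : 𝓞 K) ∉ v.asIdeal →
    ∀ σ : AbsoluteGaloisGroup K, IsFrobenius v σ → κ ℓ σ⁻¹ = (Ideal.absNorm v.asIdeal : ℚ_[ℓ])
  continuous : ∀ (i : ι) (ℓ : ℕ) [Fact ℓ.Prime], Continuous (ρ i ℓ)
  similitude : ∀ (i : ι) (ℓ : ℕ) [Fact ℓ.Prime] (g : AbsoluteGaloisGroup K),
    (ρ i ℓ g)ᵀ * adic ℓ (J i) * ρ i ℓ g = κ ℓ g ^ w i • adic ℓ (J i)
  frobenius : ∀ (i : ι) (ℓ : ℕ) [Fact ℓ.Prime], ∀ v ∉ S, (ℓ : 𝓞 K) ∉ v.asIdeal →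
    ∀ σ : AbsoluteGaloisGroup K, IsFrobenius v σ →
      (ρ i ℓ σ⁻¹).charpoly = (P i v).map (algebraMap ℚ ℚ_[ℓ])

/-- The image of Galois modulo two is large: the lattices `ℤ₂ ^ N i` are stable, the forms are integral,
`N i ≥ 6`, the `N i + 1` integral vectors `e i a` have odd products `J i (e i a, e i b)` for
`a ≠ b`, and each even permutation of the vectors `e i a` modulo two is the action of an element of the
Galois group which acts trivially on the other lattices modulo two. -/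
structure LargeModTwo {K : Type} [Field K] {ι : Type} {N : ι → ℕ}
    (J : ∀ i, Matrix (Fin (N i)) (Fin (N i)) ℚ)
    (ρ : ∀ i, AbsoluteGaloisGroup K →* Matrix (Fin (N i)) (Fin (N i)) ℚ_[2])
    (e : ∀ i, Fin (N i + 1) → Fin (N i) → ℚ_[2]) : Prop where
  rank : ∀ i, 6 ≤ N i
  integral : ∀ i g a b, ‖ρ i g a b‖ ≤ 1
  integral_form : ∀ i a b, ‖adic 2 (J i) a b‖ ≤ 1
  integral_vectors : ∀ i a b, ‖e i a b‖ ≤ 1
  products : ∀ i a b, a ≠ b → ‖e i a ⬝ᵥ adic 2 (J i) *ᵥ e i b‖ = 1
  permutations : ∀ i (π : Equiv.Perm (Fin (N i + 1))), Equiv.Perm.sign π = 1 →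
    ∃ g : AbsoluteGaloisGroup K, (∀ a b, ‖(ρ i g *ᵥ e i a - e i (π a)) b‖ < 1) ∧
      ∀ j, j ≠ i → ∀ a b, ‖(ρ j g - 1) a b‖ < 1

/-- The `ℓ`-adic realization `τ` of the motive `Z` is continuous, and a derived subgroup of an open subgroup acts
trivially, or the rank of `τ` is small. -/
def IsAdmissible {K : Type} [Field K] {ι : Type} (N : ι → ℕ) {ℓ : ℕ} [Fact ℓ.Prime] {d : ℕ}
    (τ : AbsoluteGaloisGroup K →* Matrix (Fin d) (Fin d) ℚ_[ℓ]) : Prop :=
  Continuous τ ∧
    ((∃ (U : Subgroup (AbsoluteGaloisGroup K)) (n : ℕ), IsOpen (U : Set (AbsoluteGaloisGroup K)) ∧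
      ∀ σ ∈ derivedSeries U n, τ (σ : AbsoluteGaloisGroup K) = 1) ∨
    ∀ i, d ^ 2 < (N i + 1).choose 2)

/-- The 2-adic realization `τ` of the motive `Z` is continuous and integral, and modulo two it does not
absorb the permutations of the frames: for each `i` some element of the Galois group acts trivially modulo
two on `Z` and permutes all the frames modulo two, the `i`-th frame not trivially; or the factorial of
`N i + 1` is greater than `2 ^ (d ^ 2 + 1)`. -/
structure FreeValues {K : Type} [Field K] {ι : Type} {N : ι → ℕ} {d : ℕ}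
    (ρ : ∀ i, AbsoluteGaloisGroup K →* Matrix (Fin (N i)) (Fin (N i)) ℚ_[2])
    (e : ∀ i, Fin (N i + 1) → Fin (N i) → ℚ_[2])
    (τ : AbsoluteGaloisGroup K →* Matrix (Fin d) (Fin d) ℚ_[2]) : Prop where
  continuous : Continuous τ
  integral : ∀ g a b, ‖τ g a b‖ ≤ 1
  free : ∀ i, 2 ^ (d ^ 2 + 1) < (N i + 1).factorial ∨
    ∃ (g : AbsoluteGaloisGroup K) (π : ∀ j, Equiv.Perm (Fin (N j + 1))),
      (∀ a b, ‖(τ g - 1) a b‖ < 1) ∧ π i ≠ 1 ∧
        ∀ j a b, ‖(ρ j g *ᵥ e j a - e j (π j a)) b‖ < 1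

/-- the coordinates of `(z, c)` -/
def pointOf {F : Type} {d : ℕ} (z : Matrix (Fin d) (Fin d) F) (c : F) :
    (Fin d × Fin d) ⊕ Unit → F :=
  Sum.elim (fun p => z p.1 p.2) fun _ => c

/-- the coordinates of `(g, z, c)` -/
def point {F : Type} {ι : Type} {N : ι → ℕ} {d : ℕ} (g : ∀ i, Matrix (Fin (N i)) (Fin (N i)) F)
    (z : Matrix (Fin d) (Fin d) F) (c : F) :
    (Σ i, Fin (N i) × Fin (N i)) ⊕ ((Fin d × Fin d) ⊕ Unit) → F :=
  Sum.elim (fun p => g p.1 p.2.1 p.2.2) (pointOf z c)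

/-- `x` is a point over `E` of the Zariski closure of the points `A σ` over `k` -/
def InZariskiClosure {k E C Γ : Type} [Field k] [Field E] [Algebra k E] (A : Γ → C → k)
    (x : C → E) : Prop :=
  ∀ f : MvPolynomial C k, (∀ σ, MvPolynomial.eval (A σ) f = 0) → MvPolynomial.aeval x f = 0

/-- `(g, z, c)` is a point over `E` of the algebraic monodromy group of the sum of the motives `M i`,
`Z` and `ℚ(-n)` -/
def InMonodromyGroup {K : Type} [Field K] {ι : Type} {N : ι → ℕ} {d : ℕ} (ℓ : ℕ) [Fact ℓ.Prime]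
    (n : ℕ) (ρ : ∀ i, AbsoluteGaloisGroup K →* Matrix (Fin (N i)) (Fin (N i)) ℚ_[ℓ])
    (τ : AbsoluteGaloisGroup K →* Matrix (Fin d) (Fin d) ℚ_[ℓ])
    (κ : AbsoluteGaloisGroup K →* ℚ_[ℓ]) {E : Type} [Field E] [Algebra ℚ_[ℓ] E]
    (g : ∀ i, Matrix (Fin (N i)) (Fin (N i)) E) (z : Matrix (Fin d) (Fin d) E) (c : E) : Prop :=
  (∀ i, IsUnit (g i)) ∧ IsUnit z ∧ c ≠ 0 ∧
    InZariskiClosure (fun σ => point (fun i => ρ i σ) (τ σ) (κ σ ^ n)) (point g z c)

/-- `(z, c)` is a point over `E` of the algebraic monodromy group of the sum of the motives `Z` and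
`ℚ(-n)` -/
def InMonodromyGroupOf {K : Type} [Field K] {d : ℕ} (ℓ : ℕ) [Fact ℓ.Prime] (n : ℕ)
    (τ : AbsoluteGaloisGroup K →* Matrix (Fin d) (Fin d) ℚ_[ℓ])
    (κ : AbsoluteGaloisGroup K →* ℚ_[ℓ]) {E : Type} [Field E] [Algebra ℚ_[ℓ] E]
    (z : Matrix (Fin d) (Fin d) E) (c : E) : Prop :=
  IsUnit z ∧ c ≠ 0 ∧ InZariskiClosure (fun σ => pointOf (τ σ) (κ σ ^ n)) (pointOf z c)

/-- `g` is a family of similitudes of the polarizations, with the factors `c ^ u i` -/
def IsSimilitude {ι : Type} {N : ι → ℕ} (u : ι → ℕ) (J : ∀ i, Matrix (Fin (N i)) (Fin (N i)) ℚ)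
    (ℓ : ℕ) [Fact ℓ.Prime] {E : Type} [Field E] [Algebra ℚ_[ℓ] E]
    (g : ∀ i, Matrix (Fin (N i)) (Fin (N i)) E) (c : E) : Prop :=
  ∀ i, (g i)ᵀ * (adic ℓ (J i)).map (algebraMap ℚ_[ℓ] E) * g i =
    c ^ u i • (adic ℓ (J i)).map (algebraMap ℚ_[ℓ] E)

/-- the algebraic monodromy group of the sum of the `M i`, `Z` and `ℚ(-n)` is the fibre product of the
similitudes and of the algebraic monodromy group of `Z` and `ℚ(-n)` -/
def IsFibreProduct {K : Type} [Field K] {ι : Type} {N : ι → ℕ} {d : ℕ} (w : ι → ℕ)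
    (J : ∀ i, Matrix (Fin (N i)) (Fin (N i)) ℚ) (ℓ : ℕ) [Fact ℓ.Prime]
    (ρ : ∀ i, AbsoluteGaloisGroup K →* Matrix (Fin (N i)) (Fin (N i)) ℚ_[ℓ])
    (τ : AbsoluteGaloisGroup K →* Matrix (Fin d) (Fin d) ℚ_[ℓ])
    (κ : AbsoluteGaloisGroup K →* ℚ_[ℓ]) : Prop :=
  ∀ (n : ℕ) (u : ι → ℕ), (∀ i, w i = n * u i) → ∀ (E : Type) [Field E] [Algebra ℚ_[ℓ] E]
    (g : ∀ i, Matrix (Fin (N i)) (Fin (N i)) E) (z : Matrix (Fin d) (Fin d) E) (c : E),
    InMonodromyGroup ℓ n ρ τ κ g z c ↔ InMonodromyGroupOf ℓ n τ κ z c ∧ IsSimilitude u J ℓ g c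

/-- each element near `1` of the product of the symplectic groups is given by an element of the Galois
group which acts trivially on `Z` and on `ℚ(-1)` -/
def OpenKernel {K : Type} [Field K] {ι : Type} {N : ι → ℕ} {d : ℕ}
    (J : ∀ i, Matrix (Fin (N i)) (Fin (N i)) ℚ) (ℓ : ℕ) [Fact ℓ.Prime]
    (ρ : ∀ i, AbsoluteGaloisGroup K →* Matrix (Fin (N i)) (Fin (N i)) ℚ_[ℓ])
    (τ : AbsoluteGaloisGroup K →* Matrix (Fin d) (Fin d) ℚ_[ℓ])
    (κ : AbsoluteGaloisGroup K →* ℚ_[ℓ]) : Prop :=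
  ∃ ε : ℝ, 0 < ε ∧ ∀ g : ∀ i, Matrix (Fin (N i)) (Fin (N i)) ℚ_[ℓ],
    (∀ i, (g i)ᵀ * adic ℓ (J i) * g i = adic ℓ (J i)) → (∀ i a b, ‖(g i - 1) a b‖ < ε) →
      ∃ σ, (∀ i, ρ i σ = g i) ∧ τ σ = 1 ∧ κ σ = 1

/-- for every `𝒢` (the points over `E` of the motivic Galois group of the sum of the `M i`, `Z` and
`ℚ(-n)`) which contains the algebraic monodromy group and is contained in the similitudes: the part with
`c = 1` of `𝒢` is in the monodromy group if and only if this is true after the projection to `Z`; and the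
same for all points of `𝒢` -/
def SatoTateIff {K : Type} [Field K] {ι : Type} {N : ι → ℕ} {d : ℕ} (w : ι → ℕ)
    (J : ∀ i, Matrix (Fin (N i)) (Fin (N i)) ℚ) (ℓ : ℕ) [Fact ℓ.Prime]
    (ρ : ∀ i, AbsoluteGaloisGroup K →* Matrix (Fin (N i)) (Fin (N i)) ℚ_[ℓ])
    (τ : AbsoluteGaloisGroup K →* Matrix (Fin d) (Fin d) ℚ_[ℓ])
    (κ : AbsoluteGaloisGroup K →* ℚ_[ℓ]) : Prop :=
  ∀ (n : ℕ) (u : ι → ℕ), (∀ i, w i = n * u i) → ∀ (E : Type) [Field E] [Algebra ℚ_[ℓ] E]
    (𝒢 : (∀ i, Matrix (Fin (N i)) (Fin (N i)) E) → Matrix (Fin d) (Fin d) E → E → Prop),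
    (∀ g z c, InMonodromyGroup ℓ n ρ τ κ g z c → 𝒢 g z c) →
    (∀ g z c, 𝒢 g z c → IsSimilitude u J ℓ g c) →
      ((∀ g z, 𝒢 g z 1 → InMonodromyGroup ℓ n ρ τ κ g z 1) ↔
        ∀ g z, 𝒢 g z 1 → InMonodromyGroupOf ℓ n τ κ z 1) ∧
      ((∀ g z c, 𝒢 g z c → InMonodromyGroup ℓ n ρ τ κ g z c) ↔
        ∀ g z c, 𝒢 g z c → InMonodromyGroupOf ℓ n τ κ z c)

/-- **The conclusion at the prime number `ℓ`** for the motive `Z`. -/
def SatoTateFor {K : Type} [Field K] {ι : Type} {N : ι → ℕ} {d : ℕ} (w : ι → ℕ)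
    (J : ∀ i, Matrix (Fin (N i)) (Fin (N i)) ℚ) (ℓ : ℕ) [Fact ℓ.Prime]
    (κ : AbsoluteGaloisGroup K →* ℚ_[ℓ])
    (ρ : ∀ i, AbsoluteGaloisGroup K →* Matrix (Fin (N i)) (Fin (N i)) ℚ_[ℓ])
    (τ : AbsoluteGaloisGroup K →* Matrix (Fin d) (Fin d) ℚ_[ℓ]) : Prop :=
  IsFibreProduct w J ℓ ρ τ κ ∧ OpenKernel J ℓ ρ τ κ ∧ SatoTateIff w J ℓ ρ τ κ

/-- the conclusion at the prime number `ℓ`, for all motives `Z` with an admissible realization -/
def SatoTateForAll {K : Type} [Field K] {ι : Type} {N : ι → ℕ} (w : ι → ℕ)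
    (J : ∀ i, Matrix (Fin (N i)) (Fin (N i)) ℚ) (ℓ : ℕ) [Fact ℓ.Prime]
    (κ : AbsoluteGaloisGroup K →* ℚ_[ℓ])
    (ρ : ∀ i, AbsoluteGaloisGroup K →* Matrix (Fin (N i)) (Fin (N i)) ℚ_[ℓ]) : Prop :=
  ∀ (d : ℕ) (τ : AbsoluteGaloisGroup K →* Matrix (Fin d) (Fin d) ℚ_[ℓ]), IsAdmissible N τ →
    SatoTateFor w J ℓ κ ρ τ

/-- every matrix which commutes with the action of an open subgroup is scalar -/
def HasScalarEnd {K : Type} [Field K] (ℓ : ℕ) [Fact ℓ.Prime] {n : ℕ}
    (ρ : AbsoluteGaloisGroup K →* Matrix (Fin n) (Fin n) ℚ_[ℓ]) : Prop :=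
  ∀ (A : Matrix (Fin n) (Fin n) ℚ_[ℓ]) (U : Subgroup (AbsoluteGaloisGroup K)),
    IsOpen (U : Set (AbsoluteGaloisGroup K)) → (∀ σ ∈ U, A * ρ σ = ρ σ * A) →
      ∃ c : ℚ_[ℓ], A = c • (1 : Matrix (Fin n) (Fin n) ℚ_[ℓ])

/-- every stable subspace has a stable complement -/
def IsSemisimple {K : Type} [Field K] (ℓ : ℕ) [Fact ℓ.Prime] {n : ℕ}
    (ρ : AbsoluteGaloisGroup K →* Matrix (Fin n) (Fin n) ℚ_[ℓ]) : Prop :=
  ∀ W : Submodule ℚ_[ℓ] (Fin n → ℚ_[ℓ]), (∀ g, ∀ x ∈ W, ρ g *ᵥ x ∈ W) →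
    ∃ W' : Submodule ℚ_[ℓ] (Fin n → ℚ_[ℓ]), IsCompl W W' ∧ ∀ g, ∀ x ∈ W', ρ g *ᵥ x ∈ W'

/-- a set of prime numbers has natural density zero -/
def DensityZero (A : Set ℕ) : Prop :=
  Tendsto (fun n : ℕ => (Nat.card {ℓ : ℕ // ℓ ≤ n ∧ ℓ ∈ A} : ℝ) / (Nat.primeCounting n : ℝ))
    atTop (𝓝 0)

/-- the motives are pure, and multiples of the Frobenius eigenvalues by powers of `N v` are
integral -/
def IsPureIntegral {K : Type} [Field K] [NumberField K] {ι : Type} (w : ι → ℕ)
    (S : Set (HeightOneSpectrum (𝓞 K))) (P : ι → HeightOneSpectrum (𝓞 K) → ℚ[X]) : Prop :=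
  ∀ i, ∃ m : ℕ, 0 < w i + 2 * m ∧ ∀ v ∉ S,
    (∃ R : ℤ[X], R.map (algebraMap ℤ ℚ) =
      (P i v).scaleRoots ((Ideal.absNorm v.asIdeal : ℚ) ^ m)) ∧
    ∀ z : ℂ, aeval z (P i v) = 0 → ‖z‖ ^ 2 = (Ideal.absNorm v.asIdeal : ℝ) ^ w i

theorem result {K : Type} [Field K] [NumberField K] {ι : Type} [Fintype ι] {N w : ι → ℕ}
    (S : Set (HeightOneSpectrum (𝓞 K))) (P : ι → HeightOneSpectrum (𝓞 K) → ℚ[X])
    (J : ∀ i, Matrix (Fin (N i)) (Fin (N i)) ℚ)
    (κ : ∀ (ℓ : ℕ) [Fact ℓ.Prime], AbsoluteGaloisGroup K →* ℚ_[ℓ])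
    (ρ : ∀ (i : ι) (ℓ : ℕ) [Fact ℓ.Prime],
      AbsoluteGaloisGroup K →* Matrix (Fin (N i)) (Fin (N i)) ℚ_[ℓ])
    (h : IsSystem (w := w) S P J κ ρ)
    -- the hypothesis on the image modulo two
    (e : ∀ i, Fin (N i + 1) → Fin (N i) → ℚ_[2]) (h2 : LargeModTwo J (fun i => ρ i 2) e) :
    -- (1) at the prime number two
    (SatoTateForAll w J 2 (κ 2) (fun i => ρ i 2) ∧
      ∀ (d : ℕ) (τ : AbsoluteGaloisGroup K →* Matrix (Fin d) (Fin d) ℚ_[2]),
        FreeValues (fun i => ρ i 2) e τ → SatoTateFor w J 2 (κ 2) (fun i => ρ i 2) τ) ∧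
    -- (2) at 100 percent of the prime numbers
    DensityZero {ℓ | ∃ _ : Fact ℓ.Prime, ¬ SatoTateForAll w J ℓ (κ ℓ) (fun i => ρ i ℓ)} ∧
    -- (3) at every prime number with semisimplicity and scalar endomorphisms
    ∀ (ℓ : ℕ) [Fact ℓ.Prime],
      ((∀ i, IsSemisimple ℓ (ρ i ℓ)) ∨ (Module.finrank ℚ K = 1 ∧ IsPureIntegral w S P)) →
      (∀ i, HasScalarEnd ℓ (ρ i ℓ)) → SatoTateForAll w J ℓ (κ ℓ) (fun i => ρ i ℓ) := by
  classical
  have hpos : ∀ i, 0 < N i := fun i => by have := h2.rank i; omega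
  have hdet2 : ∀ i, (adic 2 (J i)).det ≠ 0 := fun i =>
    Pool.Agent.R932.PO.det_map_ne (algebraMap ℚ ℚ_[2]) (h.nondegenerate i)
  have halt2 : ∀ i, (adic 2 (J i))ᵀ = -adic 2 (J i) := fun i =>
    (Pool.Agent.R932.PO.Fits.map (κ := .sym) (algebraMap ℚ ℚ_[2])
      (show Pool.Agent.R932.PO.Fits .sym (J i) from ⟨h.alternating i, hpos i⟩)).1
  have hfull : ∀ X, (∀ i, Pool.Agent.Y142.ZS.SpLie (Pool.Agent.R932.PO.JL J 2 i) (X i)) →
      Pool.Agent.R932.PO.JTan 2 (fun i => ρ i 2) X := fun X hX =>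
    Pool.Agent.N171.TG.jtan_of_large (fun i => ρ i 2) (fun i => adic 2 (J i))
      (fun i => (powMonoidHom (w i)).comp (κ 2))
      (fun i => Pool.Agent.R932.OP.even_of_alt (halt2 i) (hdet2 i)) h2.rank halt2 h2.integral
      h2.integral_form (fun i g => h.similitude i 2 g) e h2.integral_vectors h2.products
      h2.permutations X hX
  obtain ⟨r0, r1, r2, -, r4⟩ := Pool.Agent.N171.TG.mt_all h.finite J h.alternating hpos
    h.nondegenerate κ
    (fun ℓ _ => h.continuous_char ℓ) (fun ℓ _ => h.char_frobenius ℓ) ρ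
    (fun i ℓ _ => h.continuous i ℓ) (fun i ℓ _ => h.similitude i ℓ)
    (fun i ℓ _ => h.frobenius i ℓ) 2 hfull
  -- the conclusion for one realization
  have key0 : ∀ (ℓ : ℕ) [Fact ℓ.Prime] (d : ℕ)
      (τ : AbsoluteGaloisGroup K →* Matrix (Fin d) (Fin d) ℚ_[ℓ]), Continuous τ →
      (∀ X : ∀ i, Matrix (Fin (N i)) (Fin (N i)) ℚ_[ℓ],
        (∀ i, Pool.Agent.Y142.ZS.SpLie (adic ℓ (J i)) (X i)) →
          Pool.Agent.N171.TG.So.WTanL (fun i => ρ i ℓ) τ X) →
      SatoTateFor w J ℓ (κ ℓ) (fun i => ρ i ℓ) τ := by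
    intro ℓ _ d τ hτ hW
    have hdetL : ∀ i, (adic ℓ (J i)).det ≠ 0 := fun i =>
      Pool.Agent.R932.PO.det_map_ne (algebraMap ℚ ℚ_[ℓ]) (h.nondegenerate i)
    have haltL : ∀ i, (adic ℓ (J i))ᵀ = -adic ℓ (J i) := fun i =>
      Pool.Agent.N171.TG.So.alt_JL (ℓ := ℓ) h.alternating hpos i
    have hO : Pool.Agent.N171.TG.Zd.OpenK (fun i => adic ℓ (J i)) (fun i => ρ i ℓ) τ (κ ℓ) :=
      Pool.Agent.N171.TG.So.open_of_wtan (fun i => h.continuous i ℓ) hτ (h.continuous_char ℓ)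
        haltL hdetL (fun i g => h.similitude i ℓ g) hW
    have h3 : IsFibreProduct w J ℓ (fun i => ρ i ℓ) τ (κ ℓ) := fun n u hu E _ _ g z c =>
      Pool.Agent.N171.TG.So.fibre_of_open haltL hdetL hO (fun i g => h.similitude i ℓ g) hu g z c
    refine ⟨h3, hO, fun n u hu E _ _ 𝒢 _ h5 =>
      ⟨⟨fun h6 g z hm => ?_, fun h6 g z hm => ?_⟩, fun h6 g z c hm => ?_, fun h6 g z c hm => ?_⟩⟩
    · exact ((h3 n u hu E g z 1).1 (h6 g z hm)).1
    · exact (h3 n u hu E g z 1).2 ⟨h6 g z hm, h5 g z 1 hm⟩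
    · exact ((h3 n u hu E g z c).1 (h6 g z c hm)).1
    · exact (h3 n u hu E g z c).2 ⟨h6 g z c hm, h5 g z c hm⟩
  have key : ∀ (ℓ : ℕ) [Fact ℓ.Prime],
      Pool.Agent.N171.TG.MTAt ℓ w (Pool.Agent.R932.PO.JL J ℓ) (fun i => ρ i ℓ) (κ ℓ) →
        SatoTateForAll w J ℓ (κ ℓ) (fun i => ρ i ℓ) := by
    intro ℓ _ hmt d τ hτ
    exact key0 ℓ d τ hτ.1 fun X hX =>
      Pool.Agent.N171.TG.So.wtan_of_valC h.alternating h.nondegenerate hpos
        (fun i => h.continuous i ℓ) hτ.1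
        (fun Y hY => Pool.Agent.N171.TG.So.jtan_of_mt hmt Y hY) hτ.2 X hX
  refine ⟨⟨key 2 r0.1, fun d τ hτ => key0 2 d τ hτ.continuous fun X hX =>
    Pool.Agent.N171.TG.wtan_of_large (fun i => ρ i 2) (fun i => adic 2 (J i))
      (fun i => (powMonoidHom (w i)).comp (κ 2))
      (fun i => Pool.Agent.R932.OP.even_of_alt (halt2 i) (hdet2 i)) h2.rank halt2 h2.integral
      h2.integral_form (fun i g => h.similitude i 2 g) e h2.integral_vectors h2.products
      h2.permutations τ hτ.integral hτ.free X hX⟩, ?_, ?_⟩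
  · refine Pool.Agent.Y142.ZI.DensityZero.mono r1 ?_
    rintro ℓ ⟨hℓ, hn⟩
    exact ⟨hℓ, fun hm => hn (key ℓ hm.1)⟩
  · rintro ℓ _ (hss | ⟨hK, hpi⟩) hsc
    · exact key ℓ (r2 ℓ hss hsc).1
    · refine key ℓ (r2 ℓ (fun i => ?_) hsc).1
      obtain ⟨m, hm, hpi⟩ := hpi i
      exact r4 hK i m hm (fun v hv => (hpi v hv).1) (fun v hv => (hpi v hv).2) ℓ

end Pool.Agent.Results.MP_d61fbb_ag.FibreProducts
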