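import Mathlib
import Pool.Agent.N578.LB.Main
import Pool.Agent.N578.MT.DefMot
import Pool.Agent.N578.MT.Mot

/-!
# The motivic Sato-Tate conjecture: abelian varieties with a Frobenius polynomial outside a rare set

Let `g i` (`i` in a finite set `I`) be positive integers, `r` an integer smaller than all the `g i` and `E` a number
field. Put `n = ∑ g i`. For a prime power `q` a point `x` of `ℤ ^ n` gives monic polynomials `h i` of degree `g i` and the
polynomials `f i = X ^ (g i) h i (X + q / X)`; the characteristic polynomials of the abelian varieties of dimension `g i`
over the field with `q` elements are of this form.

The property (`MotivicFor`): for ALL abelian varieties `A` over number fields (or finitely generated fields)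
which have good reduction at ONE place with a residue field of `q` elements, such that the characteristic polynomial of the
Frobenius element at this place is the product of the `f i`, and ALL motives `N` such that the eigenvalues of Frobenius at
this place on `N`, with their conjugates, generate a group of rank at most `r` modulo the numbers with a power in `E`: all
Tate classes in the `Hom (H_1(A)^{⊗ n}, N')(c)`, for `N'` in the tannakian category of `N` and all `n` and `c`, are motivated
if and only if this is true for the `N'(c)`; and then the classes fixed by the Galois group itself are those fixed by the
motivic Galois group itself (no extension of the field). So the conjecture for `A` and `N` together (for `H_1(A) ⊕ N`) is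
equivalent to the conjecture for `N`, and it is true for `A`. Here `G` is the group of points of the motivic Galois group
and `θ` its character on `1(1)`. Nothing else is assumed about `A` and `N`.

(1) Among all the families of Weil `q`-polynomials of degrees `2 g i` (or of the ordinary ones) the exceptions to this
property are a proportion `O (q ^ (-1 / 6) log q)`: it holds for all lifts of almost all isogeny classes.

(2) The exceptions are rare **everywhere**: for all `q` and all `B ≥ 2` the exceptions are a proportion
`O (B ^ (-1 / 3) log B)` of the points in every parallelepiped, with sides at least `B`, of every translate of a lattice of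
finite index, where the index may have up to `B ^ (1 / 4)` prime factors and the basis is arbitrary. The constant does not
depend on `q`, so that `B` can be much smaller than `q`, for instance `B = log q`, or a large constant. Diagonal matrices
give the residue classes modulo all numbers, in particular modulo the powers of the characteristic, that is, all Newton
strata (with first slope smaller than `1 / 2`, in the form `q ∤ tr (h i) ^ 2`). Moreover there is a constant `R` such that
for all `q ≥ R` every point of `ℤ ^ n` has a good point at distance at most `R`.

The proof: by the sieve of helper521 and helper484 in the boxes of lattices (helper578, `N578/LB`) almost all families are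
such that each pair `α`, `q / α` of roots can be exchanged by a Galois automorphism which fixes all the other roots and the
elements of `E`. So the Lie algebra of the endomorphisms of the Tate module which kill all Tate forms with values in the
realization of the motive contains a Cartan subalgebra of the symplectic Lie algebra, and it is, over a finite extension, a
product of symplectic and general linear Lie algebras (helper166, helper204). It follows that the multilinear Tate maps are
combinations of products of Tate forms of degree two on `A` with Tate classes of the motive (`N578/MT`); those of degree two
on `A` are motivated by the theorem of Faltings.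
-/

set_option autoImplicit false

namespace Pool.Agent.Results.MP_d61fbb_ag.LatticeBoxes

open Polynomial Pool.Agent.W521.Frob Pool.Agent.W521.Descent Pool.Agent.W521.Density Pool.Agent.W521.Count
  Pool.Agent.W521.Bad Pool.Agent.W484.TB Pool.Agent.N578.LB Pool.Agent.N578.MT

/-- Let the `g i > r` be integers and `E` a number field. (1) The proportion of the families of Weil `q`-polynomials `f i`
of degree `2 g i` (in sets between the ordinary ones and all) such that `MotivicFor E q r f` does not hold is
`O (q ^ (-1 / 6) log q)`. (2) This property holds `InAllLattices`: for a constant `C`, all prime powers `q`, all `B ≥ 2`, in
every parallelepiped with sides at least `B` of every translate of a lattice whose index has at most `B ^ (1 / 4)` prime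
factors the exceptions are a proportion `≤ C B ^ (-1 / 3) log B`; and for a constant `R` and `q ≥ R` every point is at
distance at most `R` from a good one. -/
theorem result {I : Type} [Fintype I] [DecidableEq I] (g : I → ℕ) (r : ℕ) (hr : ∀ i, r < g i)
    (E : IntermediateField ℚ ℂ) [FiniteDimensional ℚ E] :
    (∃ C : ℝ, ∀ q : ℕ, IsPrimePow q → ∀ S : I → Set ℤ[X],
      (∀ i, ordinaryWeilPolys q (g i) ⊆ S i ∧ S i ⊆ weilPolys q (g i)) →
      (∀ i, (S i).Finite ∧ (S i).Nonempty) ∧
      ({f : I → ℤ[X] | (∀ i, f i ∈ S i) ∧ ¬ MotivicFor E q r f}.ncard : ℝ) ≤
        C * (Real.log q * (q : ℝ) ^ (-(1 / 6) : ℝ)) * ∏ i, ((S i).ncard : ℝ)) ∧
    InAllLattices g (fun q f => MotivicFor E q r f) := by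
  have hg : ∀ i, 0 < g i := fun i => (Nat.zero_le r).trans_lt (hr i)
  have key : ∀ q : ℕ, IsPrimePow q → ∀ x : (Σ i, Fin (g i)) → ℤ,
      GoodU (splitPrimes E) g q x → MotivicFor E q r (fun i => weil q (polys g x i)) :=
    fun q hq x hx => motivicFor_of_good g E hq.two_le r hr x hx
  exact ⟨count_of_goodU (splitPrimes E) (dense_splitPrimes E) g hg (fun q f => MotivicFor E q r f) key,
    inAllLattices (splitPrimes E) (dense_splitPrimes E) g hg _ key⟩

end Pool.Agent.Results.MP_d61fbb_ag.LatticeBoxes
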