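import Mathlib
import Pool.Agent.N144.SP.Mt

/-!
# The Mumford-Tate and Sato-Tate groups for a positive proportion of the primes

Let `M` be a pure motive (of André, or for absolute Hodge cycles) over a number field `K`, or over a finitely
generated field `k` of characteristic zero, and `V_ℓ` its `ℓ`-adic realizations, of dimension `N` (`Γ` is the
Galois group of `K`, or the fundamental group of a model of `k` over a number field `K`, and `s` is given by
a `K`-rational point).  Outside of a finite set `S` of places `v` there is good reduction, with
Frobenius polynomials `P v` independent of `ℓ`, and `(q v) ^ c` times a Frobenius eigenvalue is an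
algebraic integer.  Let `𝔤 ℓ` be the Lie algebra of the motivic Galois group of `M` over `ℚ_ℓ`, of rank at most
`r`.  (`Motivic` states the properties which are used: it is a Lie algebra, completely reducible with
nondegenerate trace form, it consists of all endomorphisms which kill the tensors killed by it, and these
are Tate tensors.)

The *relations* between numbers `z_1, ..., z_N` are the vectors `n` of integers such that the product of
the `z_i ^ {n_i}` is a root of unity.  Let `R` be a set of vectors of rank at most `N - r`, and let `A` be
the group of permutations of `{1, ..., N}` which preserve `R`.  An element of the image of the Galois group at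
a prime `p` has the *type* `a` (with respect to `p` and an automorphism `τ` of the algebraic closure of `ℚ_p`)
if its eigenvalues can be written as `z_1, ..., z_N` with relations `R` and `τ (z_i) = z_{a(i)}` (no quotient of
two of them being a root of unity); in the same way we define the types of the elements of the Lie
algebra of the image.  Let `T j` (for `j` in any index set) be sets of types which occur at primes `p j` for
automorphisms `τ j`.  Consider all pairs (`G`, `M`) of a subgroup `G` of `A` and a normal subgroup `M` of
`G` such that for all `j` the elements of `T j` are conjugate in `A` to elements of one coset of `M` in `G`.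
A coset `M * g` (`g` in `G`) *forces* a property of permutation groups if it is satisfied by all
subgroups `H` of `A` for which there is an element `y` of `A` which normalizes `H` such that all elements of
`M * g` are conjugate in `A` to elements of `H * y`.  Let `m` be at most the dimension of the commutant of the
`𝔤 ℓ` (the number of the irreducible components, if they are absolutely irreducible and distinct).  The
*lattice condition* for `H` is that the lattice generated by `R` and the vectors `e_i - e_{a(i)}`, `a` in `H`,
contains the vectors `e_i - e_{b(i)}` for all `b` in permutation groups `B` which contain `H` and have at least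
`m` orbits (for example, it is satisfied if `H` has at most `m` orbits).

**Theorem.**  (1) Suppose that for all these pairs, the number of the elements `g` of `G` for which the coset
`M * g` forces the lattice condition is at least `δ` times the order of `G`.  Then the set of the prime
numbers `ℓ` such that `V_ℓ` is semisimple (over all finite extensions) and all Tate tensors are killed by
`𝔤 ℓ`, has lower natural density at least `δ`.  So for these `ℓ` the Lie algebras of the `ℓ`-adic monodromy group
and of the motivic Galois group are the same, also for the kernels of the multiplier: `G_{ℓ,k}(M)° =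
𝒢_k(M)°` and `G_{1,ℓ,k}(M)` is open in `𝒢_{1,k}(M)` over `ℚ_ℓ`; this is the equality in the motivic
Sato-Tate conjecture up to the groups of components (an equality if `𝒢_k(M)` is connected).

(2) Suppose that for all these pairs, the lattice condition is satisfied by every subgroup `H` of `A` which
contains conjugates of all elements of `M` (`ForcesSplit`).  Then there is a monic polynomial `f` with
integral coefficients such that the same is true for all prime numbers `ℓ` modulo which `f` splits, outside
of a set of density zero.

(3) In particular, suppose that at one prime `p` (and for one `τ`) the type `1` and an `N`-cycle occur: i.e.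
there are places of good reduction with a Frobenius polynomial which splits over `ℚ_p`, and with an irreducible
one, with `r` independent roots.  Then the conjecture is true (in the form of (1)) for at least `N / |A|` of all
prime numbers `ℓ`, and there is a monic polynomial `f` as in (2).

For `δ = 1` this is the zero-one law (`ZeroOneLaw` in MP_3703a7_ag, which needs types that force the lattice
condition for all cosets).  The new case is that only some cosets force it, e.g. in (3), where two Frobenius
polynomials suffice, for motives with any motivic Galois group.  The bound in (3) depends only on `N`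
and `A`: it is `1 / (2 ^ {g - 1} (g - 1)!)` for motives of rank `2 g` with the group `GSp`.

The proof extends the libraries `Pool.Agent.R931.ZF`, `Pool.Agent.R931.ZG` and `Pool.Agent.N204.ZL`
(by the earlier version of this team): at almost all `ℓ` all elements of a coset `M * g` of a subgroup `M`
of the Galois group `G` of a Frobenius polynomial `P v` are types with respect to one Frobenius element of
the Galois group of `ℚ_ℓ`; the coset is given by the Frobenius class of `ℓ`, and the density of the
good classes is given by Chebotarev's theorem.  The stable subspaces at `ℓ` are compared at all places;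
the group of the permutations of the eigenvalues which preserve them gives, with the lattice condition,
enough elements of the Lie algebra of the `ℓ`-adic monodromy group.
-/

set_option autoImplicit false

namespace Pool.Agent.Results.MP_d61fbb_ag.PositiveProportion

open NumberField IsDedekindDomain Polynomial Module Pool.Agent.Y114.TF Pool.Agent.Y114.GF
  Pool.Agent.Y114.MU Pool.Agent.Y114.RM Pool.Agent.R931.GD Pool.Agent.R931.ZL Pool.Agent.R931.ZM
  Pool.Agent.R931.PD Pool.Agent.R931.ZF Pool.Agent.R931.ZG Pool.Agent.N144.SP

theorem result (K : Type) [Field K] [NumberField K] (Γ : Type) [Group Γ] [TopologicalSpace Γ]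
    [IsTopologicalGroup Γ] [CompactSpace Γ] (s : Gal(AlgebraicClosure K/K) →* Γ)
    (hs : Continuous s)
    -- the `ℓ`-adic realizations
    (N : ℕ) (hN : 0 < N)
    (ρ : ∀ (ℓ : ℕ) [Fact ℓ.Prime], Rep1 Γ N ℓ) (hρ : ∀ (ℓ : ℕ) [Fact ℓ.Prime], Conts (ρ ℓ))
    -- good reduction outside of a finite set of places
    (wt : ℤ) (c : ℕ) (S : Set (HeightOneSpectrum (𝓞 K))) (hS : S.Finite)
    (P : HeightOneSpectrum (𝓞 K) → ℚ[X])
    (hP : ∀ (ℓ : ℕ) [Fact ℓ.Prime], ∀ v ∉ S, ¬ Above v ℓ →
      GoodReduction (restrictTo (ρ ℓ) s) () wt v (P v))
    (hint : ∀ v ∉ S, IntegralAt c v (P v))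
    -- the Lie algebra of the motivic Galois group, of rank at most `r`
    (𝔤 : ∀ (ℓ : ℕ) [Fact ℓ.Prime], End1 N ℓ)
    (hmot : ∀ (ℓ : ℕ) [Fact ℓ.Prime], Motivic (ρ ℓ) (𝔤 ℓ))
    (r : ℕ) (hrank : ∀ (ℓ : ℕ) [Fact ℓ.Prime], RankLE (𝔤 ℓ) r)
    -- the dimension of its commutant is at least `m`
    (m : ℕ) (hend : ∀ (ℓ : ℕ) [Fact ℓ.Prime], m ≤ commutantDim (𝔤 ℓ))
    -- the relations between the weights, and their automorphism group
    (R : Set (Fin N → ℤ)) (hR : RankGE r R)
    -- the types at some prime numbers
    (J : Type) (T : J → Set (Equiv.Perm (Fin N))) (hne : ∃ j, (T j).Nonempty)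
    (p : J → ℕ) [∀ j, Fact (p j).Prime] (τ : ∀ j, Gal(PadicAlgCl (p j)/ℚ_[p j]))
    (htypes : ∀ j, ∀ a ∈ T j, TypeOccurs s (ρ (p j)) R (τ j) a) :
    -- a proportion of the primes
    (∀ δ : ℝ, ForcesProportion (relAut R) T (LatticeFull R m) δ →
      LowerDensityGE {ℓ | ∃ _ : Fact ℓ.Prime,
        Semisimple (ρ ℓ) ∧ TateTensorsOf (ρ ℓ) (𝔤 ℓ)} δ) ∧
    -- the primes which split in a number field
    (ForcesSplit (relAut R) T (LatticeFull R m) →
      ∃ f : ℤ[X], f.Monic ∧ HasDensityZero {ℓ | ∃ _ : Fact ℓ.Prime,
        (f.map (Int.castRingHom (ZMod ℓ))).Splits ∧
          ¬ (Semisimple (ρ ℓ) ∧ TateTensorsOf (ρ ℓ) (𝔤 ℓ))}) ∧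
    -- one split and one irreducible Frobenius polynomial
    ∀ (j : J) (a : Equiv.Perm (Fin N)), 1 ∈ T j → a ∈ T j → (∀ i k, ∃ m : ℕ, (a ^ m) i = k) →
      LowerDensityGE {ℓ | ∃ _ : Fact ℓ.Prime, Semisimple (ρ ℓ) ∧ TateTensorsOf (ρ ℓ) (𝔤 ℓ)}
        ((N : ℝ) / (Nat.card (relAut R) : ℝ)) ∧
      ∃ f : ℤ[X], f.Monic ∧ HasDensityZero {ℓ | ∃ _ : Fact ℓ.Prime,
        (f.map (Int.castRingHom (ZMod ℓ))).Splits ∧
          ¬ (Semisimple (ρ ℓ) ∧ TateTensorsOf (ρ ℓ) (𝔤 ℓ))} :=
  mt_main (K := K) (Γ := Γ) (s := s) (N := N) (wt := wt) (c := c) (r := r) (S := S) (P := P)
    (ρ := ρ) (𝔤 := 𝔤) ⟨hN, hs, hρ, hS, hP, hint, hmot, hrank⟩ m hend R hR T hne p τ htypes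

end Pool.Agent.Results.MP_d61fbb_ag.PositiveProportion
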