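import Pool.Agent.N197.QF.Grp2

/-!
# The motivic Sato-Tate conjecture for sums with an ARBITRARY pure motive, at every prime number

Let `K` be a number field in the complex numbers and let `M i`, for `i` in a finite nonempty set, be motives
over `K` with ALTERNATING rational polarizations `J i`, of odd weight `w i = 2 * k i + 1` and rank `N i ≥ 6`;
for instance the first cohomology of abelian varieties of dimension `≥ 3`, or the middle cohomology of
hypersurfaces or complete intersections of odd dimension. Let `r i ℓ`, for all prime numbers `ℓ`, be the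
realizations of the `M i` twisted to the weight `-1`: `r i ℓ = ρ i ℓ ⊗ χ ^ (k i + 1)` with `χ` the cyclotomic
character; conversely `ρ i ℓ = twist χ (k i) (r i ℓ)`. The eigenvalues of arithmetic Frobenius
elements on `r i ℓ` have weight `1`, and become integral after multiplication by `q ^ m` (`IsSystem`).

Let `Z` be an ARBITRARY pure motive over `K` with a polarization, with the realizations `R ℓ` of any rank
`d`, for example `H ^ n` of any smooth projective variety (`IsPureMotive`).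

The hypotheses on the Galois image concern the prime number TWO only:

* `LargeModTwo`: the polarizations are integral on stable lattices over `ℤ_2`, there are `N i + 1` integral
  vectors `e i a` with odd mutual products (such vectors exist for every integral alternating form with odd
  determinant), and each EVEN permutation of the vectors `e i a` modulo two is the action of some element
  of the Galois group which acts trivially on the other lattices modulo two. (For example if the joint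
  image modulo two contains the product of the groups `Sp(N i, 𝔽₂)`, or only the product of the
  alternating groups of degrees `N i + 1`.)
* `FreeValues`: the realization of `Z` modulo two does not absorb the action on the frames: for each `i`
  some element of the Galois group acts trivially on the lattice of `Z` modulo two and permutes the frames
  modulo two, the `i`-th one not trivially; or `(N i + 1)! > 2 ^ (d ^ 2 + 1)`.

**Theorem.** Let `ℓ` be

1. any prime number outside of a set of natural density zero, or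
2. ANY prime number at which the `M i` are semisimple (automatic if `K = ℚ`) with scalar endomorphisms over
   all finite extensions; for abelian varieties this is every prime number, by Faltings' theorem and
   the prime number two.

Then (`SatoTateAt`)

* each element of `∏ Sp(J i, ℚ_ℓ)` near `1` is given by an element of the Galois group which acts trivially on
  `Z` and on the cyclotomic extension (`OpenKernel`);
* the algebraic monodromy group (Zariski closure of the Galois image, with its component group; points over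
  all fields `E` which contain `ℚ_ℓ`) of the sum of the `M i`, `Z` and `ℚ(-n)`, for `n` dividing all
  weights, is the fibre product of the groups of similitudes of the `J i` and of the algebraic monodromy
  group of `Z` and `ℚ(-n)` (`IsFibreProduct`). In particular `G_{1,ℓ}(⊕ M i ⊕ Z) = ∏ Sp(J i) × G_{1,ℓ}(Z)`;
* the motivic Sato-Tate conjecture `G_{1,ℓ} = 𝒢_1` holds for the sum of the `M i` and `Z` at `ℓ` if and only
  if it holds for `Z`, and the same is true for the motivic Tate conjecture `G_ℓ = 𝒢` (`SatoTateIff`).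

Nothing is assumed about the image of Galois on `Z` at `ℓ`, about its rank, about the semisimplicity of
`Z`, or about the motivic Galois group. In MP_d61fbb_ag.FibreProducts the same is proved for `ℓ ≠ 2` only for
motives `Z` which are potentially solvable or of small rank, `d ^ 2 < N i (N i + 1) / 2`; for `Z` of large
rank the difficulty is to exclude that the Lie algebra of the image at `ℓ` contains the graph of a
homomorphism from a subquotient of the Lie algebra of `Z` onto `sp(J i)`.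

Idea of the proof. If `sp(J i)` is not in the Lie algebra of the image on the sum, with component zero on
`Z`, then by Goursat's lemma `sp(J i)` is a Galois subquotient of `End Z = Z ⊗ Z (w)`, so that
the polynomials of the products of two Frobenius eigenvalues of `Z`, which are rational and do not depend on
`ℓ`, annihilate the Frobenius elements on `sp(J i)`. By Serre's argument on the finiteness of the possible
relations between Weil numbers, and Chebotarev's theorem at the prime number two (where the image on the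
`M i` is large and independent of `Z`), there are places without relations between the eigenvalues on
the `M i` and the products of two eigenvalues on `Z` (`Pool.Agent.N197.AP.main20`). Hence all Galois
equivariant alternating maps from powers of `⊕ M i` to `sp(J i)` are combinations of products of forms
of degree two and invariant elements of `sp(J i)` (which are zero); the map `(x, y) ↦ x ω(y, ·) + y ω(x, ·)`
gives a contradiction. Then `p`-adic logarithms and the symplectic transvections give the statement about the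
algebraic groups (`Pool.Agent.N171.TG.So`).
-/

set_option autoImplicit false

namespace Pool.Agent.Results.MP_d61fbb_ag.ProductsEveryPrime

open Matrix Polynomial Filter Topology NumberField IsDedekindDomain

/-- the absolute Galois group, with the profinite (Krull) topology -/
abbrev AbsoluteGaloisGroup (K : Type) [Field K] : Type := Gal(AlgebraicClosure K/K)

/-- `σ` is an (arithmetic) Frobenius element at the prime `v` of `K`: there is a maximal ideal `Q` above
`v` of the ring of all algebraic integers with `σ x ≡ x ^ N(v)` modulo `Q` for all `x` -/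
def IsFrobenius {K : Type} [Field K] [NumberField K] (v : HeightOneSpectrum (𝓞 K))
    (σ : AbsoluteGaloisGroup K) : Prop :=
  ∃ Q : Ideal (𝓞 (AlgebraicClosure K)), Q.IsMaximal ∧
    Q.comap (algebraMap (𝓞 K) (𝓞 (AlgebraicClosure K))) = v.asIdeal ∧
    ∀ x : 𝓞 (AlgebraicClosure K), σ • x - x ^ Ideal.absNorm v.asIdeal ∈ Q

/-- The roots of the rational polynomial `P` are Weil numbers of weight `w` for the place `v`, and become
integral after multiplication by `q ^ m`, with `q` the number of elements of the residue field. -/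
def IsWeil {K : Type} [Field K] [NumberField K] (v : HeightOneSpectrum (𝓞 K)) (w : ℤ) (m : ℕ)
    (P : ℚ[X]) : Prop :=
  ∀ z : ℂ, aeval z P = 0 → ‖z‖ ^ 2 = (Ideal.absNorm v.asIdeal : ℝ) ^ w ∧
    IsIntegral ℤ ((Ideal.absNorm v.asIdeal : ℂ) ^ m * z)

/-- `χ` is the cyclotomic character with values in `ℚ_ℓ` -/
structure IsCyclotomic {K : Type} [Field K] [NumberField K] (S : Set (HeightOneSpectrum (𝓞 K)))
    (ℓ : ℕ) [Fact ℓ.Prime] (χ : AbsoluteGaloisGroup K →* ℚ_[ℓ]) : Prop where
  continuous : Continuous χ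
  frobenius : ∀ v ∉ S, (ℓ : 𝓞 K) ∉ v.asIdeal → ∀ σ : AbsoluteGaloisGroup K, IsFrobenius v σ →
    χ σ = (Ideal.absNorm v.asIdeal : ℚ_[ℓ])

/-- the rational matrix as an `ℓ`-adic matrix -/
noncomputable def adic (ℓ : ℕ) [Fact ℓ.Prime] {n : ℕ} (J : Matrix (Fin n) (Fin n) ℚ) :
    Matrix (Fin n) (Fin n) ℚ_[ℓ] :=
  J.map (Rat.castHom ℚ_[ℓ])

/-- `R ℓ`, for all prime numbers `ℓ`, are the realizations of a pure motive with the rational polarization
`J`: continuous representations by similitudes with the factor `χ ^ w`; outside of the finite set `S` of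
places the characteristic polynomials `Q v` of the arithmetic Frobenius elements do not depend on `ℓ`
and are pure of weight `w`. -/
structure IsPureMotive {K : Type} [Field K] [NumberField K] (S : Set (HeightOneSpectrum (𝓞 K)))
    (w : ℤ) (m : ℕ) (Q : HeightOneSpectrum (𝓞 K) → ℚ[X]) {d : ℕ} (J : Matrix (Fin d) (Fin d) ℚ)
    (χ : ∀ (ℓ : ℕ) [Fact ℓ.Prime], AbsoluteGaloisGroup K →* ℚ_[ℓ])
    (R : ∀ (ℓ : ℕ) [Fact ℓ.Prime], AbsoluteGaloisGroup K →* Matrix (Fin d) (Fin d) ℚ_[ℓ]) :
    Prop where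
  nondegenerate : J.det ≠ 0
  pure : ∀ v ∉ S, IsWeil v w m (Q v)
  continuous : ∀ (ℓ : ℕ) [Fact ℓ.Prime], Continuous (R ℓ)
  similitude : ∀ (ℓ : ℕ) [Fact ℓ.Prime] (g : AbsoluteGaloisGroup K),
    (R ℓ g)ᵀ * adic ℓ J * R ℓ g = χ ℓ g ^ w • adic ℓ J
  frobenius : ∀ (ℓ : ℕ) [Fact ℓ.Prime], ∀ v ∉ S, (ℓ : 𝓞 K) ∉ v.asIdeal →
    ∀ σ : AbsoluteGaloisGroup K, IsFrobenius v σ →
      (R ℓ σ).charpoly = (Q v).map (Rat.castHom ℚ_[ℓ])

/-- The realizations `r i ℓ`, for all prime numbers `ℓ`, of motives of rank `N i` and weight `-1` over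
the number field `K` (motives of odd weight after a Tate twist), with alternating polarizations `J i`;
`χ ℓ` is the cyclotomic character. -/
structure IsSystem {K : Type} [Field K] [NumberField K] {ι : Type} {N : ι → ℕ}
    (S : Set (HeightOneSpectrum (𝓞 K))) (m : ℕ) (P : ι → HeightOneSpectrum (𝓞 K) → ℚ[X])
    (J : ∀ i, Matrix (Fin (N i)) (Fin (N i)) ℚ)
    (χ : ∀ (ℓ : ℕ) [Fact ℓ.Prime], AbsoluteGaloisGroup K →* ℚ_[ℓ])
    (r : ∀ (i : ι) (ℓ : ℕ) [Fact ℓ.Prime],
      AbsoluteGaloisGroup K →* Matrix (Fin (N i)) (Fin (N i)) ℚ_[ℓ]) : Prop where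
  finite : S.Finite
  cyclotomic : ∀ (ℓ : ℕ) [Fact ℓ.Prime], IsCyclotomic S ℓ (χ ℓ)
  alternating : ∀ i, (J i)ᵀ = -J i
  motive : ∀ i, IsPureMotive S 1 m (P i) (J i) χ (r i)

/-- The image of Galois modulo two is large: the lattices `ℤ₂ ^ N i` are stable, the forms are integral,
`N i ≥ 6`, the `N i + 1` integral vectors `e i a` have odd products `J i (e i a, e i b)` for
`a ≠ b`, and each even permutation of the vectors `e i a` modulo two is the action of an element of the
Galois group which acts trivially on the other lattices modulo two. -/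
structure LargeModTwo {K : Type} [Field K] {ι : Type} {N : ι → ℕ}
    (J : ∀ i, Matrix (Fin (N i)) (Fin (N i)) ℚ)
    (ρ : ∀ i, AbsoluteGaloisGroup K →* Matrix (Fin (N i)) (Fin (N i)) ℚ_[2])
    (e : ∀ i, Fin (N i + 1) → Fin (N i) → ℚ_[2]) : Prop where
  rank : ∀ i, 6 ≤ N i
  integral : ∀ i g a b, ‖ρ i g a b‖ ≤ 1
  integral_form : ∀ i a b, ‖adic 2 (J i) a b‖ ≤ 1
  integral_vectors : ∀ i a b, ‖e i a b‖ ≤ 1
  products : ∀ i a b, a ≠ b → ‖e i a ⬝ᵥ adic 2 (J i) *ᵥ e i b‖ = 1
  permutations : ∀ i (π : Equiv.Perm (Fin (N i + 1))), Equiv.Perm.sign π = 1 →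
    ∃ g : AbsoluteGaloisGroup K, (∀ a b, ‖(ρ i g *ᵥ e i a - e i (π a)) b‖ < 1) ∧
      ∀ j, j ≠ i → ∀ a b, ‖(ρ j g - 1) a b‖ < 1

/-- The 2-adic realization `τ` of the motive `Z` is integral, and modulo two it does not absorb
the permutations of the frames: for each `i` some element of the Galois group acts trivially modulo two on
the lattice of `Z` and permutes all the frames modulo two, the `i`-th frame not trivially; or the
factorial of `N i + 1` is greater than `2 ^ (d ^ 2 + 1)`. -/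
structure FreeValues {K : Type} [Field K] {ι : Type} {N : ι → ℕ} {d : ℕ}
    (ρ : ∀ i, AbsoluteGaloisGroup K →* Matrix (Fin (N i)) (Fin (N i)) ℚ_[2])
    (e : ∀ i, Fin (N i + 1) → Fin (N i) → ℚ_[2])
    (τ : AbsoluteGaloisGroup K →* Matrix (Fin d) (Fin d) ℚ_[2]) : Prop where
  integral : ∀ g a b, ‖τ g a b‖ ≤ 1
  free : ∀ i, 2 ^ (d ^ 2 + 1) < (N i + 1).factorial ∨
    ∃ (g : AbsoluteGaloisGroup K) (π : ∀ j, Equiv.Perm (Fin (N j + 1))),
      (∀ a b, ‖(τ g - 1) a b‖ < 1) ∧ π i ≠ 1 ∧
        ∀ j a b, ‖(ρ j g *ᵥ e j a - e j (π j a)) b‖ < 1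

/-- the coordinates of `(z, c)` -/
def pointOf {F : Type} {d : ℕ} (z : Matrix (Fin d) (Fin d) F) (c : F) :
    (Fin d × Fin d) ⊕ Unit → F :=
  Sum.elim (fun p => z p.1 p.2) fun _ => c

/-- the coordinates of `(g, z, c)` -/
def point {F : Type} {ι : Type} {N : ι → ℕ} {d : ℕ} (g : ∀ i, Matrix (Fin (N i)) (Fin (N i)) F)
    (z : Matrix (Fin d) (Fin d) F) (c : F) :
    (Σ i, Fin (N i) × Fin (N i)) ⊕ ((Fin d × Fin d) ⊕ Unit) → F :=
  Sum.elim (fun p => g p.1 p.2.1 p.2.2) (pointOf z c)

/-- `x` is a point over `E` of the Zariski closure of the points `A σ` over `k` -/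
def InZariskiClosure {k E C Γ : Type} [Field k] [Field E] [Algebra k E] (A : Γ → C → k)
    (x : C → E) : Prop :=
  ∀ f : MvPolynomial C k, (∀ σ, MvPolynomial.eval (A σ) f = 0) → MvPolynomial.aeval x f = 0

/-- `(g, z, c)` is a point over `E` of the algebraic monodromy group of the sum of the motives with the
realizations `ρ i`, the motive `Z` with the realization `τ`, and `ℚ(-n)`, where `κ` is the action on
`ℚ(-1)` -/
def InMonodromyGroup {K : Type} [Field K] {ι : Type} {N : ι → ℕ} {d : ℕ} (ℓ : ℕ) [Fact ℓ.Prime]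
    (n : ℕ) (ρ : ∀ i, AbsoluteGaloisGroup K →* Matrix (Fin (N i)) (Fin (N i)) ℚ_[ℓ])
    (τ : AbsoluteGaloisGroup K →* Matrix (Fin d) (Fin d) ℚ_[ℓ])
    (κ : AbsoluteGaloisGroup K →* ℚ_[ℓ]) {E : Type} [Field E] [Algebra ℚ_[ℓ] E]
    (g : ∀ i, Matrix (Fin (N i)) (Fin (N i)) E) (z : Matrix (Fin d) (Fin d) E) (c : E) : Prop :=
  (∀ i, IsUnit (g i)) ∧ IsUnit z ∧ c ≠ 0 ∧
    InZariskiClosure (fun σ => point (fun i => ρ i σ) (τ σ) (κ σ ^ n)) (point g z c)

/-- `(z, c)` is a point over `E` of the algebraic monodromy group of the sum of the motives `Z` and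
`ℚ(-n)` -/
def InMonodromyGroupOf {K : Type} [Field K] {d : ℕ} (ℓ : ℕ) [Fact ℓ.Prime] (n : ℕ)
    (τ : AbsoluteGaloisGroup K →* Matrix (Fin d) (Fin d) ℚ_[ℓ])
    (κ : AbsoluteGaloisGroup K →* ℚ_[ℓ]) {E : Type} [Field E] [Algebra ℚ_[ℓ] E]
    (z : Matrix (Fin d) (Fin d) E) (c : E) : Prop :=
  IsUnit z ∧ c ≠ 0 ∧ InZariskiClosure (fun σ => pointOf (τ σ) (κ σ ^ n)) (pointOf z c)

/-- `g` is a family of similitudes of the polarizations, with the factors `c ^ u i` -/
def IsSimilitude {ι : Type} {N : ι → ℕ} (u : ι → ℕ) (J : ∀ i, Matrix (Fin (N i)) (Fin (N i)) ℚ)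
    (ℓ : ℕ) [Fact ℓ.Prime] {E : Type} [Field E] [Algebra ℚ_[ℓ] E]
    (g : ∀ i, Matrix (Fin (N i)) (Fin (N i)) E) (c : E) : Prop :=
  ∀ i, (g i)ᵀ * (adic ℓ (J i)).map (algebraMap ℚ_[ℓ] E) * g i =
    c ^ u i • (adic ℓ (J i)).map (algebraMap ℚ_[ℓ] E)

/-- the algebraic monodromy group of the sum of the motives `ρ i` of weights `w i`, `Z` and `ℚ(-n)` is the
fibre product of the similitudes and of the algebraic monodromy group of `Z` and `ℚ(-n)` -/
def IsFibreProduct {K : Type} [Field K] {ι : Type} {N : ι → ℕ} {d : ℕ} (w : ι → ℕ)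
    (J : ∀ i, Matrix (Fin (N i)) (Fin (N i)) ℚ) (ℓ : ℕ) [Fact ℓ.Prime]
    (ρ : ∀ i, AbsoluteGaloisGroup K →* Matrix (Fin (N i)) (Fin (N i)) ℚ_[ℓ])
    (τ : AbsoluteGaloisGroup K →* Matrix (Fin d) (Fin d) ℚ_[ℓ])
    (κ : AbsoluteGaloisGroup K →* ℚ_[ℓ]) : Prop :=
  ∀ (n : ℕ) (u : ι → ℕ), (∀ i, w i = n * u i) → ∀ (E : Type) [Field E] [Algebra ℚ_[ℓ] E]
    (g : ∀ i, Matrix (Fin (N i)) (Fin (N i)) E) (z : Matrix (Fin d) (Fin d) E) (c : E),
    InMonodromyGroup ℓ n ρ τ κ g z c ↔ InMonodromyGroupOf ℓ n τ κ z c ∧ IsSimilitude u J ℓ g c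

/-- each element near `1` of the product of the symplectic groups is given by an element of the Galois
group which acts trivially on `Z` and on the cyclotomic extension -/
def OpenKernel {K : Type} [Field K] {ι : Type} {N : ι → ℕ} {d : ℕ}
    (J : ∀ i, Matrix (Fin (N i)) (Fin (N i)) ℚ) (ℓ : ℕ) [Fact ℓ.Prime]
    (r : ∀ i, AbsoluteGaloisGroup K →* Matrix (Fin (N i)) (Fin (N i)) ℚ_[ℓ])
    (τ : AbsoluteGaloisGroup K →* Matrix (Fin d) (Fin d) ℚ_[ℓ])
    (χ : AbsoluteGaloisGroup K →* ℚ_[ℓ]) : Prop :=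
  ∃ ε : ℝ, 0 < ε ∧ ∀ g : ∀ i, Matrix (Fin (N i)) (Fin (N i)) ℚ_[ℓ],
    (∀ i, (g i)ᵀ * adic ℓ (J i) * g i = adic ℓ (J i)) → (∀ i a b, ‖(g i - 1) a b‖ < ε) →
      ∃ σ, (∀ i, r i σ = g i) ∧ τ σ = 1 ∧ χ σ = 1

/-- for every `𝒢` (the points over `E` of the motivic Galois group of the sum of the `M i`, `Z` and
`ℚ(-n)`) which contains the algebraic monodromy group and is contained in the similitudes: the part with
`c = 1` of `𝒢` is in the monodromy group if and only if this is true after the projection to `Z`; and the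
same for all points of `𝒢` -/
def SatoTateIff {K : Type} [Field K] {ι : Type} {N : ι → ℕ} {d : ℕ} (w : ι → ℕ)
    (J : ∀ i, Matrix (Fin (N i)) (Fin (N i)) ℚ) (ℓ : ℕ) [Fact ℓ.Prime]
    (ρ : ∀ i, AbsoluteGaloisGroup K →* Matrix (Fin (N i)) (Fin (N i)) ℚ_[ℓ])
    (τ : AbsoluteGaloisGroup K →* Matrix (Fin d) (Fin d) ℚ_[ℓ])
    (κ : AbsoluteGaloisGroup K →* ℚ_[ℓ]) : Prop :=
  ∀ (n : ℕ) (u : ι → ℕ), (∀ i, w i = n * u i) → ∀ (E : Type) [Field E] [Algebra ℚ_[ℓ] E]
    (𝒢 : (∀ i, Matrix (Fin (N i)) (Fin (N i)) E) → Matrix (Fin d) (Fin d) E → E → Prop),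
    (∀ g z c, InMonodromyGroup ℓ n ρ τ κ g z c → 𝒢 g z c) →
    (∀ g z c, 𝒢 g z c → IsSimilitude u J ℓ g c) →
      ((∀ g z, 𝒢 g z 1 → InMonodromyGroup ℓ n ρ τ κ g z 1) ↔
        ∀ g z, 𝒢 g z 1 → InMonodromyGroupOf ℓ n τ κ z 1) ∧
      ((∀ g z c, 𝒢 g z c → InMonodromyGroup ℓ n ρ τ κ g z c) ↔
        ∀ g z c, 𝒢 g z c → InMonodromyGroupOf ℓ n τ κ z c)

/-- the inverse of a character -/
def inverse {G F : Type} [Group G] [Field F] (χ : G →* F) : G →* F where
  toFun g := χ g⁻¹
  map_one' := by rw [inv_one, map_one]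
  map_mul' g h := by rw [_root_.mul_inv_rev, map_mul, mul_comm]

/-- the twist of `r` by the power `-(k + 1)` of the character `χ` -/
def twist {G F : Type} [Group G] [Field F] {n : ℕ} (χ : G →* F) (k : ℕ)
    (r : G →* Matrix (Fin n) (Fin n) F) : G →* Matrix (Fin n) (Fin n) F where
  toFun g := inverse χ g ^ (k + 1) • r g
  map_one' := by rw [map_one, map_one, one_pow, one_smul]
  map_mul' g h := by rw [map_mul, map_mul, mul_pow, smul_mul_smul_comm]

/-- **The conclusion at the prime number `ℓ`**, for all weights `2 * k i + 1` of the motives `M i`. -/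
def SatoTateAt {K : Type} [Field K] {ι : Type} {N : ι → ℕ} {d : ℕ}
    (J : ∀ i, Matrix (Fin (N i)) (Fin (N i)) ℚ) (ℓ : ℕ) [Fact ℓ.Prime]
    (χ : AbsoluteGaloisGroup K →* ℚ_[ℓ])
    (r : ∀ i, AbsoluteGaloisGroup K →* Matrix (Fin (N i)) (Fin (N i)) ℚ_[ℓ])
    (τ : AbsoluteGaloisGroup K →* Matrix (Fin d) (Fin d) ℚ_[ℓ]) : Prop :=
  OpenKernel J ℓ r τ χ ∧ ∀ k : ι → ℕ,
    IsFibreProduct (fun i => 2 * k i + 1) J ℓ (fun i => twist χ (k i) (r i)) τ (inverse χ) ∧
    SatoTateIff (fun i => 2 * k i + 1) J ℓ (fun i => twist χ (k i) (r i)) τ (inverse χ)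

/-- every matrix which commutes with the action of an open subgroup is scalar -/
def HasScalarEnd {K : Type} [Field K] (ℓ : ℕ) [Fact ℓ.Prime] {n : ℕ}
    (ρ : AbsoluteGaloisGroup K →* Matrix (Fin n) (Fin n) ℚ_[ℓ]) : Prop :=
  ∀ (A : Matrix (Fin n) (Fin n) ℚ_[ℓ]) (U : Subgroup (AbsoluteGaloisGroup K)),
    IsOpen (U : Set (AbsoluteGaloisGroup K)) → (∀ σ ∈ U, A * ρ σ = ρ σ * A) →
      ∃ c : ℚ_[ℓ], A = c • (1 : Matrix (Fin n) (Fin n) ℚ_[ℓ])

/-- every stable subspace has a stable complement -/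
def IsSemisimple {K : Type} [Field K] (ℓ : ℕ) [Fact ℓ.Prime] {n : ℕ}
    (ρ : AbsoluteGaloisGroup K →* Matrix (Fin n) (Fin n) ℚ_[ℓ]) : Prop :=
  ∀ W : Submodule ℚ_[ℓ] (Fin n → ℚ_[ℓ]), (∀ g, ∀ x ∈ W, ρ g *ᵥ x ∈ W) →
    ∃ W' : Submodule ℚ_[ℓ] (Fin n → ℚ_[ℓ]), IsCompl W W' ∧ ∀ g, ∀ x ∈ W', ρ g *ᵥ x ∈ W'

/-- a set of prime numbers has natural density zero -/
def DensityZero (A : Set ℕ) : Prop :=
  Tendsto (fun n : ℕ => (Nat.card {ℓ : ℕ // ℓ ≤ n ∧ ℓ ∈ A} : ℝ) / (Nat.primeCounting n : ℝ))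
    atTop (𝓝 0)

/-- **The motivic Sato-Tate conjecture for sums with an arbitrary pure motive.** -/
theorem result {K : Type} [Field K] [NumberField K] {ι : Type} [Fintype ι] [Nonempty ι]
    {N : ι → ℕ} {d m : ℕ} {w : ℤ}
    -- motives of odd weight, twisted to weight `-1`
    (S : Set (HeightOneSpectrum (𝓞 K))) (P : ι → HeightOneSpectrum (𝓞 K) → ℚ[X])
    (J : ∀ i, Matrix (Fin (N i)) (Fin (N i)) ℚ)
    (χ : ∀ (ℓ : ℕ) [Fact ℓ.Prime], AbsoluteGaloisGroup K →* ℚ_[ℓ])
    (r : ∀ (i : ι) (ℓ : ℕ) [Fact ℓ.Prime],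
      AbsoluteGaloisGroup K →* Matrix (Fin (N i)) (Fin (N i)) ℚ_[ℓ])
    (h : IsSystem S m P J χ r)
    -- the hypothesis on the image modulo two
    (e : ∀ i, Fin (N i + 1) → Fin (N i) → ℚ_[2]) (h2 : LargeModTwo J (fun i => r i 2) e)
    -- the motive `Z`
    (Q : HeightOneSpectrum (𝓞 K) → ℚ[X]) (J' : Matrix (Fin d) (Fin d) ℚ)
    (R : ∀ (ℓ : ℕ) [Fact ℓ.Prime], AbsoluteGaloisGroup K →* Matrix (Fin d) (Fin d) ℚ_[ℓ])
    (hZ : IsPureMotive S w m Q J' χ R) (hfree : FreeValues (fun i => r i 2) e (R 2)) :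
    -- (1) at 100 percent of the prime numbers
    DensityZero {ℓ | ∃ _ : Fact ℓ.Prime, ¬ SatoTateAt J ℓ (χ ℓ) (fun i => r i ℓ) (R ℓ)} ∧
    -- (2) at every prime number with semisimplicity and scalar endomorphisms
    ∀ (ℓ : ℕ) [Fact ℓ.Prime], ((∀ i, IsSemisimple ℓ (r i ℓ)) ∨ Module.finrank ℚ K = 1) →
      (∀ i, HasScalarEnd ℓ (r i ℓ)) → SatoTateAt J ℓ (χ ℓ) (fun i => r i ℓ) (R ℓ) := by
  classical
  have hP : ∀ v ∉ S, ∀ i, ∀ z : ℂ, aeval z (P i v) = 0 →
      ‖z‖ ^ 2 = (Ideal.absNorm v.asIdeal : ℝ) ∧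
        IsIntegral ℤ ((Ideal.absNorm v.asIdeal : ℂ) ^ m * z) := fun v hv i z hz => by
    have h1 := (h.motive i).pure v hv z hz
    rwa [zpow_one] at h1
  obtain ⟨h3, h4⟩ := Pool.Agent.N197.QF.open_all S h.finite P Q hP hZ.pure χ
    (fun ℓ _ => (h.cyclotomic ℓ).continuous) J r (fun i ℓ _ => (h.motive i).continuous ℓ)
    h.alternating (fun i => (h.motive i).nondegenerate)
    (fun i ℓ _ g => by
      have h1 := (h.motive i).similitude ℓ g
      rwa [zpow_one] at h1)
    (fun ℓ _ => (h.cyclotomic ℓ).frobenius) (fun i ℓ _ => (h.motive i).frobenius ℓ) e h2.rank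
    h2.integral h2.integral_form h2.integral_vectors h2.products h2.permutations R hZ.continuous
    hfree.integral hfree.free hZ.frobenius J' hZ.nondegenerate hZ.similitude
  have key : ∀ (ℓ : ℕ) [Fact ℓ.Prime], OpenKernel J ℓ (fun i => r i ℓ) (R ℓ) (χ ℓ) →
      SatoTateAt J ℓ (χ ℓ) (fun i => r i ℓ) (R ℓ) := by
    intro ℓ _ hO
    refine ⟨hO, fun k => ?_⟩
    have hO' : Pool.Agent.N171.TG.Zd.OpenK (fun i => adic ℓ (J i))
        (fun i => twist (χ ℓ) (k i) (r i ℓ)) (R ℓ) (inverse (χ ℓ)) := by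
      obtain ⟨ε, hε, h5⟩ := hO
      refine ⟨ε, hε, fun g hg hg1 => ?_⟩
      obtain ⟨σ, h6, h7, h8⟩ := h5 g hg hg1
      have h9 : inverse (χ ℓ) σ = 1 := by
        have h10 : inverse (χ ℓ) σ * χ ℓ σ = 1 := Pool.Agent.N197.QF.invChar_mul (χ ℓ) σ
        rwa [h8, mul_one] at h10
      refine ⟨σ, fun i => ?_, h7, h9⟩
      show inverse (χ ℓ) σ ^ (k i + 1) • r i ℓ σ = g i
      rw [h9, one_pow, one_smul, h6]
    have halt : ∀ i, (adic ℓ (J i))ᵀ = -adic ℓ (J i) := fun i => by
      have h1 : (adic ℓ (J i))ᵀ = adic ℓ (J i)ᵀ := rfl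
      rw [h1, h.alternating]
      exact Matrix.ext fun a b => map_neg (Rat.castHom ℚ_[ℓ]) (J i a b)
    have hdet : ∀ i, (adic ℓ (J i)).det ≠ 0 := fun i => by
      have h1 : (adic ℓ (J i)).det = Rat.castHom ℚ_[ℓ] (J i).det :=
        (RingHom.map_det (Rat.castHom ℚ_[ℓ]) (J i)).symm
      rw [h1]
      exact (_root_.map_ne_zero _).2 (h.motive i).nondegenerate
    have h3 : IsFibreProduct (fun i => 2 * k i + 1) J ℓ (fun i => twist (χ ℓ) (k i) (r i ℓ)) (R ℓ)
        (inverse (χ ℓ)) := fun n u hu E _ _ g z c =>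
      Pool.Agent.N171.TG.So.fibre_of_open halt hdet hO'
        (fun i g => Pool.Agent.N197.QF.tw_sim (fun g => by
          have h1 := (h.motive i).similitude ℓ g
          rwa [zpow_one] at h1) (k i) g) hu g z c
    refine ⟨h3, fun n u hu E _ _ 𝒢 _ h5 =>
      ⟨⟨fun h6 g z hm => ?_, fun h6 g z hm => ?_⟩, fun h6 g z c hm => ?_, fun h6 g z c hm => ?_⟩⟩
    · exact ((h3 n u hu E g z 1).1 (h6 g z hm)).1
    · exact (h3 n u hu E g z 1).2 ⟨h6 g z hm, h5 g z 1 hm⟩
    · exact ((h3 n u hu E g z c).1 (h6 g z c hm)).1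
    · exact (h3 n u hu E g z c).2 ⟨h6 g z c hm, h5 g z c hm⟩
  refine ⟨?_, fun ℓ _ hss hsc => key ℓ (h4 ℓ hss hsc)⟩
  refine Pool.Agent.Y142.ZI.DensityZero.mono h3 ?_
  rintro ℓ ⟨hℓ, hn⟩
  exact ⟨hℓ, fun hm => hn (key ℓ hm)⟩

end Pool.Agent.Results.MP_d61fbb_ag.ProductsEveryPrime
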